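import Pool.Agent.Helper82.AM.C7b
import Pool.Agent.Helper15.RA.GoalsH
import Pool.Agent.Helper45.AM.GoalsA

/-!
# Project AM (MP_cc6379_al), packet AM-C7: (b) for at most `n` syllables.
-/

set_option autoImplicit false

open LaurentPolynomial Pool.Agent.Helper15.RA Pool.Agent.Helper45.AM

noncomputable section

namespace Pool.Agent.Helper61.AM

/-- `c_g`, `g ∈ W_K`, `α g ≤ M`. -/
theorem c_low {S W H : Type} [Group W] [Ring H] [Algebra ℤ[T;T⁻¹] H] (X : AC S W H) (n M : ℕ)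
    (as : A_S) (h2 : H_2) (b3 : B_3) (hSA : X.SA (n + 1)) (g : W) (hg : g ∈ par X.cs X.K) :
    X.LamT M 0 0 (X.D.c g) := by
  obtain ⟨-, -, -, as4, -⟩ := as S W H X.toBase X.K
  obtain ⟨-, -, -, h24, -, h26, -⟩ := h2 S W H X.M X.cs X.L X.wt X.D
  obtain ⟨b31, -⟩ := b3 S W H X
  have e : X.D.c g = ∑ w ∈ (X.D.t.repr (X.D.c g)).support, X.D.t.repr (X.D.c g) w • X.D.t w := by
    have := X.D.t.linearCombination_repr (X.D.c g)
    rw [Finsupp.linearCombination_apply, Finsupp.sum] at this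
    exact this.symm
  rw [e]
  refine AC.LamT.sum fun w hw => ?_
  have hw0 : X.D.t.repr (X.D.c g) w ≠ 0 := Finsupp.mem_support_iff.1 hw
  have hwK : w ∈ par X.cs X.K := as4 g hg w hw0
  have hsl : X.sl w = 0 := (b31 w).2 hwK
  have hL := (hSA M w (by omega)).1
  rw [hsl] at hL
  have hdeg : DegLE 0 (X.D.t.repr (X.D.c g) w) := by
    by_cases hwg : w = g
    · rw [hwg, h24]
      exact DegLE.one le_rfl
    · exact (h26 g w hwg).mono (by omega)
  exact hL.smul_le hdeg le_rfl (by omega)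

theorem h_c_7 (h1 : H_1) (h2 : H_2) (as : A_S) (b1 : B_1) (b3 : B_3) (b5 : B_5) (c1 : C_1) (c4 : C_4)
    (c5 : C_5) (c6 : C_6) : Pool.Agent.Helper45.AM.C_7 := by
  intro S W H _ _ _ X n hSB hSA M x g y hadm hn
  have hTp : ∀ x' g' y', X.Adm x' g' y' → g' ∉ par X.cs X.K → ∃ b, X.Tp b x' g' y' := by
    rintro x' g' y' (⟨b, h3, h4, h5⟩ | ⟨-, h4, -⟩) h6
    · exact ⟨b, h3, h4, h6, h5⟩
    · exact absurd h4 h6
  by_cases hg : g ∈ par X.cs X.K
  · by_cases hxy : x ≠ 1 ∨ y ≠ 1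
    · obtain ⟨e, he, hr⟩ := Pool.Agent.Helper82.AM.h_c_7b b1 c5 c6 S W H X x g y hadm hg hxy
      rw [he, Finsupp.sum]
      refine AC.LamT.sum fun r hr' => ?_
      obtain ⟨ha, hα, hnn, hdeg⟩ := hr r hr'
      rcases hnn with hnn | ⟨hnn, hrK, -⟩
      · have hB := hSB M _ _ _ ha (by omega)
        exact hB.smul_le (hdeg M) hnn.le (by omega)
      · obtain ⟨b, hb⟩ := hTp _ _ _ ha hrK
        have hB := c4 S W H X n hSB hSA M b _ _ _ hb (by omega)
        exact hB.smul_le (hdeg M) hnn.le (by omega)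
    · push Not at hxy
      obtain ⟨rfl, rfl⟩ := hxy
      obtain ⟨b31, -⟩ := b3 S W H X
      obtain ⟨-, -, -, -, b55, -, -, b58⟩ := b5 S W H X
      obtain ⟨g1, g2, -⟩ := b58 1 g 1 hadm
      have hsl : X.sl 1 = 0 := (b31 1).2 (Subgroup.one_mem _)
      have hnn0 : X.nn 1 g 1 = 0 := by
        unfold AC.nn
        rw [if_pos hg, hsl]
      rw [hnn0]
      by_cases hM : M < X.α g
      · have e0 : X.eps M 1 g 1 = 0 := AC.eps_eq_zero X (b55 _ _ _ hM.le g1) (b55 _ _ _ hM.le g2)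
        refine AC.LamT.of_idl (AC.B_mem_Idl hadm hM (by omega)) ?_
        exact (c1 S W H X 1 g 1 hadm).mono (by omega)
      · have hB : X.B 1 g 1 = X.D.c g := by
          unfold AC.B
          rw [(h1 S W H X.M X.cs X.L X.D.toHecke0).1, one_mul, mul_one]
        rw [hB]
        refine (c_low X n M as h2 b3 hSA g hg).mono le_rfl ?_
        by_cases h7 : X.Ge M (1 * g) ∧ X.Ge M (g * 1)
        · have e0 : X.eps M 1 g 1 = 0 := AC.eps_eq_zero X h7.1 h7.2
          omega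
        · have h8 : ¬ M ≤ X.α g := fun h8 => h7 ⟨b55 _ _ _ h8 g1, b55 _ _ _ h8 g2⟩
          have := AC.eps_le_one X M 1 g 1
          omega
  · obtain ⟨b, hb⟩ := hTp _ _ _ hadm hg
    exact c4 S W H X n hSB hSA M b x g y hb hn

end Pool.Agent.Helper61.AM
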